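import Pool.Agent.MP_686ee2_an.SC.Signed

/-!
Few sign changes of the vectors `A x` force few changes of sign of the minors `T ∪ {k}`, as `k` moves.
-/

set_option autoImplicit false

open Finset Matrix

namespace Pool.Agent.BalanWangSC

open Pool.Agent.BalanWang

lemma exists_not_mem_ge (T : Finset ℕ) (k : ℕ) : ∃ j, k ≤ j ∧ j ∉ T := by
  obtain ⟨j, hj⟩ := Infinite.exists_notMem_finset (T ∪ range k)
  rw [mem_union, not_or, mem_range] at hj
  exact ⟨j, by omega, hj.1⟩

open Classical in
/-- the first element outside `T` from `k` on -/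
noncomputable def nx (T : Finset ℕ) (k : ℕ) : ℕ := Nat.find (exists_not_mem_ge T k)

lemma nx_spec (T : Finset ℕ) (k : ℕ) : k ≤ nx T k ∧ nx T k ∉ T := by
  classical
  exact Nat.find_spec (exists_not_mem_ge T k)

lemma nx_min (T : Finset ℕ) (k : ℕ) {j : ℕ} (h1 : k ≤ j) (h2 : j ∉ T) : nx T k ≤ j := by
  classical
  exact Nat.find_min' (exists_not_mem_ge T k) ⟨h1, h2⟩

lemma nx_of_not_mem {T : Finset ℕ} {k : ℕ} (hk : k ∉ T) : nx T k = k :=
  le_antisymm (nx_min T k le_rfl hk) (nx_spec T k).1

lemma nx_of_mem {T : Finset ℕ} {k : ℕ} (hk : k ∈ T) : nx T k = nx T (k + 1) := by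
  refine le_antisymm (nx_min T k (by have := (nx_spec T (k + 1)).1; omega) (nx_spec T (k + 1)).2)
    (nx_min T (k + 1) ?_ (nx_spec T k).2)
  have h1 := (nx_spec T k).1
  have h2 := (nx_spec T k).2
  rcases Nat.lt_or_ge k (nx T k) with h | h
  · omega
  · have : nx T k = k := by omega
    rw [this] at h2
    exact absurd hk h2

lemma sg_succ_mem {T : Finset ℕ} {k : ℕ} (hk : k ∈ T) : sg T (k + 1) = - sg T k := by
  unfold sg
  have : T.filter (· < k + 1) = insert k (T.filter (· < k)) := by
    ext x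
    simp only [mem_filter, mem_insert]
    constructor
    · rintro ⟨h1, h2⟩
      rcases Nat.lt_or_ge x k with h | h
      · exact Or.inr ⟨h1, h⟩
      · exact Or.inl (by omega)
    · rintro (rfl | ⟨h1, h2⟩)
      · exact ⟨hk, by omega⟩
      · exact ⟨h1, by omega⟩
  rw [this, card_insert_of_notMem (by simp), pow_succ]
  ring

lemma sg_succ_not_mem {T : Finset ℕ} {k : ℕ} (hk : k ∉ T) : sg T (k + 1) = sg T k := by
  unfold sg
  have : T.filter (· < k + 1) = T.filter (· < k) := by
    ext x
    simp only [mem_filter]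
    constructor
    · rintro ⟨h1, h2⟩
      refine ⟨h1, ?_⟩
      rcases Nat.lt_or_ge x k with h | h
      · exact h
      · have : x = k := by omega
        exact absurd (this ▸ h1) hk
    · rintro ⟨h1, h2⟩
      exact ⟨h1, by omega⟩
  rw [this]

/-- discrete intermediate value -/
lemma exists_change (c : ℕ → ℝ) {k k' : ℕ} (hkk : k ≤ k') (h : c k ≠ c k') :
    ∃ j, k ≤ j ∧ j < k' ∧ c j ≠ c (j + 1) := by
  by_contra hcon
  push Not at hcon
  have : ∀ m, k + m ≤ k' → c k = c (k + m) := by
    intro m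
    induction m with
    | zero => intro _; rfl
    | succ m ih =>
      intro hm
      rw [ih (by omega), hcon (k + m) (by omega) (by omega)]
      rfl
  apply h
  have h2 := this (k' - k) (by omega)
  rwa [show k + (k' - k) = k' by omega] at h2

lemma exists_delta (F : Finset ℕ) (a b : ℕ → ℝ) (hb : ∀ k ∈ F, b k ≠ 0) :
    ∃ δ : ℝ, 0 < δ ∧ ∀ k ∈ F, δ * |a k| < |b k| := by
  induction F using Finset.induction_on with
  | empty => exact ⟨1, one_pos, by simp⟩
  | insert k F hk ih =>
    obtain ⟨δ, hδ, h⟩ := ih fun j hj => hb j (mem_insert_of_mem hj)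
    have hbk : 0 < |b k| := abs_pos.2 (hb k (mem_insert_self _ _))
    have hak : 0 < |a k| + 1 := by positivity
    refine ⟨min δ (|b k| / (|a k| + 1)), lt_min hδ (div_pos hbk hak), ?_⟩
    intro j hj
    rw [mem_insert] at hj
    rcases hj with rfl | hj
    · calc min δ (|b j| / (|a j| + 1)) * |a j| ≤ |b j| / (|a j| + 1) * |a j| :=
            mul_le_mul_of_nonneg_right (min_le_right _ _) (abs_nonneg _)
        _ < |b j| / (|a j| + 1) * (|a j| + 1) :=
            mul_lt_mul_of_pos_left (by linarith) (div_pos hbk hak)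
        _ = |b j| := by field_simp
    · exact lt_of_le_of_lt (mul_le_mul_of_nonneg_right (min_le_left _ _) (abs_nonneg _)) (h j hj)

section

variable {s : ℕ}

/-- the measurement `A x` at `k` -/
def ev (w : ℕ → Fin (s + 1) → ℝ) (x : Fin (s + 1) → ℝ) (k : ℕ) : ℝ := ∑ j, w k j * x j

/-- cofactor vector -/
lemma exists_cofactor (w : ℕ → Fin (s + 1) → ℝ) (t : Fin s → ℕ) :
    ∃ x0 : Fin (s + 1) → ℝ, ∀ k, ev w x0 k = DR w (Fin.cons k t) := by
  refine ⟨fun j => ((Matrix.of (fun i => w ((Fin.cons 0 t : Fin (s + 1) → ℕ) i))).updateRow 0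
    (Pi.single j 1)).det, fun k => ?_⟩
  unfold ev DR
  rw [← det_updateRow_eq_sum]
  congr 1
  ext i j
  refine Fin.cases ?_ (fun l => ?_) i
  · rw [updateRow_self]; rfl
  · rw [updateRow_ne (Fin.succ_ne_zero l)]; rfl

lemma exists_solution (w : ℕ → Fin (s + 1) → ℝ) (u : Fin (s + 1) → ℕ) (hu : DR w u ≠ 0)
    (v : ℕ → ℝ) : ∃ x1 : Fin (s + 1) → ℝ, ∀ i, ev w x1 (u i) = v (u i) := by
  set B : Matrix (Fin (s + 1)) (Fin (s + 1)) ℝ := Matrix.of (fun i => w (u i)) with hB
  have hunit : IsUnit B.det := isUnit_iff_ne_zero.2 hu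
  refine ⟨B⁻¹ *ᵥ (fun i => v (u i)), fun i => ?_⟩
  have h : B *ᵥ (B⁻¹ *ᵥ (fun i => v (u i))) = fun i => v (u i) := by
    rw [Matrix.mulVec_mulVec, Matrix.mul_nonsing_inv B hunit, Matrix.one_mulVec]
  exact congrFun h i

open Classical in
/-- **Few changing windows.** -/
theorem few_changes (w : ℕ → Fin (s + 1) → ℝ) (N g : ℕ) (hN : s < N)
    (hspark : ∀ S ⊆ range N, S.card = s + 1 → PS w S ≠ 0)
    (hsc : ∀ x : Fin (s + 1) → ℝ, (∀ k < N, ev w x k ≠ 0) →
      ((range (N - 1)).filter (fun k => ev w x k * ev w x (k + 1) < 0)).card ≤ s + g)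
    (T : Finset ℕ) (hTN : T ⊆ range N) (hT : T.card = s)
    {κ : Type*} [Fintype κ] (lo hi : κ → ℕ) (hhi : ∀ i, hi i ≤ N)
    (hdis : ∀ i j, i ≠ j → ∀ k, ¬ (lo i ≤ k ∧ k < hi i ∧ lo j ≤ k ∧ k < hi j)) :
    (univ.filter (fun i : κ => ∃ k k', lo i ≤ k ∧ k < hi i ∧ lo i ≤ k' ∧ k' < hi i ∧ k ∉ T ∧
      k' ∉ T ∧ PS w (insert k T) * PS w (insert k' T) < 0)).card ≤ g + 1 := by
  set t : Fin s → ℕ := ⇑(T.orderEmbOfFin hT) with ht
  have htT : ∀ l, t l ∈ T := fun l => orderEmbOfFin_mem _ _ _
  have htsurj : ∀ k ∈ T, ∃ l, t l = k := by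
    intro k hk
    have : k ∈ Set.range (T.orderEmbOfFin hT) := by
      rw [range_orderEmbOfFin]; exact_mod_cast hk
    exact this
  have hPS : ∀ k < N, k ∉ T → PS w (insert k T) ≠ 0 := by
    intro k hk hkT
    refine hspark _ ?_ (by rw [card_insert_of_notMem hkT, hT])
    intro y hy
    rw [mem_insert] at hy
    rcases hy with rfl | hy
    · exact mem_range.2 hk
    · exact hTN hy
  -- signs
  set h : ℕ → ℝ := fun k => if 0 ≤ PS w (insert k T) then 1 else -1 with hh
  set c : ℕ → ℝ := fun k => h (nx T k) with hc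
  have hpm : ∀ k, h k = 1 ∨ h k = -1 := by
    intro k
    simp only [hh]
    split_ifs
    · exact Or.inl rfl
    · exact Or.inr rfl
  have hcpm : ∀ k, c k = 1 ∨ c k = -1 := fun k => hpm _
  have hcT : ∀ k ∈ T, c k = c (k + 1) := fun k hk => by simp only [hc]; rw [nx_of_mem hk]
  have hcnT : ∀ k, k ∉ T → c k = h k := fun k hk => by simp only [hc]; rw [nx_of_not_mem hk]
  have hhpos : ∀ k < N, k ∉ T → 0 < PS w (insert k T) * h k := by
    intro k hk hkT
    have := hPS k hk hkT
    simp only [hh]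
    split_ifs with h0
    · rw [mul_one]; exact lt_of_le_of_ne h0 (Ne.symm this)
    · push Not at h0
      linarith
  set σ : ℕ → ℝ := fun k => sg T k * c k with hσ
  have hσsq : ∀ k, σ k * σ k = 1 := by
    intro k
    have h1 := sg_sq T k
    have h2 : c k * c k = 1 := by rcases hcpm k with h | h <;> rw [h] <;> norm_num
    calc σ k * σ k = (sg T k * sg T k) * (c k * c k) := by simp only [hσ]; ring
      _ = 1 := by rw [h1, h2, one_mul]
  have hσT : ∀ k ∈ T, σ k * σ (k + 1) < 0 := by
    intro k hk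
    have h1 : σ (k + 1) = - σ k := by
      simp only [hσ]
      rw [sg_succ_mem hk, ← hcT k hk]
      ring
    rw [h1]
    have := hσsq k
    linarith
  have hσnT : ∀ k, k ∉ T → c k ≠ c (k + 1) → σ k * σ (k + 1) < 0 := by
    intro k hk hne
    have h1 : σ k * σ (k + 1) = (sg T k * sg T k) * (c k * c (k + 1)) := by
      simp only [hσ]
      rw [sg_succ_not_mem hk]
      ring
    rw [h1, sg_sq, one_mul]
    rcases hcpm k with h2 | h2 <;> rcases hcpm (k + 1) with h3 | h3 <;> rw [h2, h3]
    · exact absurd (by rw [h2, h3]) hne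
    · norm_num
    · norm_num
    · exact absurd (by rw [h2, h3]) hne
  -- the vectors
  obtain ⟨x0, hx0⟩ := exists_cofactor w t
  have hx0k : ∀ k, k ∉ T → ev w x0 k = sg T k * PS w (insert k T) := by
    intro k hk
    rw [hx0, PS_one w hT hk]
    have := sg_sq T k
    calc DR w (Fin.cons k t) = (sg T k * sg T k) * DR w (Fin.cons k t) := by rw [this, one_mul]
      _ = _ := by ring
  have hx0T : ∀ k ∈ T, ev w x0 k = 0 := by
    intro k hk
    obtain ⟨l, hl⟩ := htsurj k hk
    rw [hx0]
    unfold DR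
    refine det_zero_of_row_eq (i := 0) (j := l.succ) (Fin.succ_ne_zero l).symm ?_
    ext j
    simp [hl]
  obtain ⟨k1, hk1, hk1T⟩ : ∃ k1, k1 < N ∧ k1 ∉ T := by
    by_contra hcon
    push Not at hcon
    have : range N ⊆ T := fun k hk => hcon k (mem_range.1 hk)
    have := card_le_card this
    rw [card_range, hT] at this
    omega
  obtain ⟨x1, hx1⟩ := exists_solution w (Fin.cons k1 t) (by
    have h1 := hPS k1 hk1 hk1T
    rw [PS_one w hT hk1T] at h1
    exact (mul_ne_zero_iff.1 h1).2) σ
  have hx1T : ∀ k ∈ T, ev w x1 k = σ k := by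
    intro k hk
    obtain ⟨l, hl⟩ := htsurj k hk
    have := hx1 l.succ
    simp only [Fin.cons_succ] at this
    rw [hl] at this
    exact this
  obtain ⟨δ, hδ, hδk⟩ := exists_delta ((range N).filter (· ∉ T)) (ev w x1) (ev w x0) (by
    intro k hk
    rw [mem_filter, mem_range] at hk
    rw [hx0k k hk.2]
    refine mul_ne_zero (fun h0 => ?_) (hPS k hk.1 hk.2)
    have := sg_sq T k
    rw [h0] at this
    norm_num at this)
  set x : Fin (s + 1) → ℝ := fun j => x0 j + δ * x1 j with hx
  have hevx : ∀ k, ev w x k = ev w x0 k + δ * ev w x1 k := by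
    intro k
    unfold ev
    rw [mul_sum, ← sum_add_distrib]
    exact sum_congr rfl fun j _ => by simp only [hx]; ring
  have hsign : ∀ k < N, 0 < ev w x k * σ k := by
    intro k hk
    by_cases hkT : k ∈ T
    · rw [hevx, hx0T k hkT, hx1T k hkT]
      have := hσsq k
      calc (0 : ℝ) < δ := hδ
        _ = (0 + δ * σ k) * σ k := by linear_combination (-δ) * this
    · have h1 : 0 < ev w x0 k * σ k := by
        rw [hx0k k hkT]
        simp only [hσ]
        rw [hcnT k hkT]
        have h2 := hhpos k hk hkT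
        have h3 := sg_sq T k
        calc (0 : ℝ) < PS w (insert k T) * h k := h2
          _ = sg T k * PS w (insert k T) * (sg T k * h k) := by
            linear_combination (-(PS w (insert k T) * h k)) * h3
      have h2 := hδk k (mem_filter.2 ⟨mem_range.2 hk, hkT⟩)
      have hσabs : |σ k| = 1 := by
        have := hσsq k
        rw [← abs_mul_abs_self] at this
        nlinarith [abs_nonneg (σ k)]
      have h3 : ev w x0 k * σ k = |ev w x0 k| := by
        rw [← abs_of_pos h1, abs_mul, hσabs, mul_one]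
      have h4 : |δ * ev w x1 k * σ k| = δ * |ev w x1 k| := by
        rw [abs_mul, abs_mul, hσabs, mul_one, abs_of_pos hδ]
      rw [hevx, add_mul, h3]
      have h5 := neg_abs_le (δ * ev w x1 k * σ k)
      rw [h4] at h5
      linarith
  have hne : ∀ k < N, ev w x k ≠ 0 := by
    intro k hk h0
    have := hsign k hk
    rw [h0, zero_mul] at this
    exact lt_irrefl _ this
  have hcount := hsc x hne
  set CH := (range (N - 1)).filter (fun k => ev w x k * ev w x (k + 1) < 0) with hCH
  have hCHmem : ∀ k, k + 1 < N → σ k * σ (k + 1) < 0 → k ∈ CH := by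
    intro k hk hneg
    rw [hCH, mem_filter, mem_range]
    refine ⟨by omega, ?_⟩
    have h1 := mul_pos (hsign k (by omega)) (hsign (k + 1) hk)
    have h2 : ev w x k * σ k * (ev w x (k + 1) * σ (k + 1))
        = (ev w x k * ev w x (k + 1)) * (σ k * σ (k + 1)) := by ring
    rw [h2] at h1
    exact neg_of_mul_pos_left h1 hneg.le
  -- the changing windows
  set B := univ.filter (fun i : κ => ∃ k k', lo i ≤ k ∧ k < hi i ∧ lo i ≤ k' ∧ k' < hi i ∧ k ∉ T ∧
      k' ∉ T ∧ PS w (insert k T) * PS w (insert k' T) < 0) with hB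
  have hBk : ∀ i ∈ B, ∃ j, lo i ≤ j ∧ j < hi i ∧ j ∉ T ∧ j ∈ CH := by
    intro i hi'
    rw [hB, mem_filter] at hi'
    obtain ⟨-, k, k', h1, h2, h3, h4, h5, h6, h7⟩ := hi'
    have hck : c k ≠ c k' := by
      intro e
      rw [hcnT k h5, hcnT k' h6] at e
      have a1 := hhpos k (by have := hhi i; omega) h5
      have a2 := hhpos k' (by have := hhi i; omega) h6
      rw [e] at a1
      have a3 := mul_pos a1 a2
      have a4 : h k' * h k' = 1 := by rcases hpm k' with h | h <;> rw [h] <;> norm_num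
      have a5 : PS w (insert k T) * h k' * (PS w (insert k' T) * h k')
          = PS w (insert k T) * PS w (insert k' T) * (h k' * h k') := by ring
      rw [a5, a4, mul_one] at a3
      linarith
    have hfin : ∀ a b : ℕ, lo i ≤ a → b < hi i → a ≤ b → c a ≠ c b →
        ∃ j, lo i ≤ j ∧ j < hi i ∧ j ∉ T ∧ j ∈ CH := by
      intro a b ha hb hab hne'
      obtain ⟨j, hj1, hj2, hj3⟩ := exists_change c hab hne'
      have hjT : j ∉ T := fun hjT => hj3 (hcT j hjT)
      refine ⟨j, by omega, by omega, hjT, hCHmem j ?_ (hσnT j hjT hj3)⟩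
      have := hhi i
      omega
    rcases le_total k k' with h | h
    · exact hfin k k' h1 h4 h hck
    · exact hfin k' k h3 h2 h (Ne.symm hck)
  choose! f hf1 hf2 hf3 hf4 using hBk
  have hinj : Set.InjOn f (B : Set κ) := by
    intro i hi' j hj' hij
    by_contra hne'
    refine hdis i j hne' (f i) ⟨hf1 i (by exact_mod_cast hi'), hf2 i (by exact_mod_cast hi'), ?_, ?_⟩
    · rw [hij]; exact hf1 j (by exact_mod_cast hj')
    · rw [hij]; exact hf2 j (by exact_mod_cast hj')
  have hsub : B.image f ∪ T.filter (fun k => k + 1 < N) ⊆ CH := by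
    intro k hk
    rw [mem_union, mem_image, mem_filter] at hk
    rcases hk with ⟨i, hi', rfl⟩ | ⟨h1, h2⟩
    · exact hf4 i hi'
    · exact hCHmem k h2 (hσT k h1)
  have hdisj : Disjoint (B.image f) (T.filter (fun k => k + 1 < N)) := by
    rw [Finset.disjoint_left]
    intro k hk hk2
    rw [mem_image] at hk
    obtain ⟨i, hi', rfl⟩ := hk
    exact hf3 i hi' (mem_filter.1 hk2).1
  have hcard := card_le_card hsub
  rw [card_union_of_disjoint hdisj, card_image_of_injOn hinj] at hcard
  have hTc : s ≤ (T.filter (fun k => k + 1 < N)).card + 1 := by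
    have h1 : T ⊆ insert (N - 1) (T.filter (fun k => k + 1 < N)) := by
      intro k hk
      have := mem_range.1 (hTN hk)
      rw [mem_insert, mem_filter]
      by_cases h2 : k + 1 < N
      · exact Or.inr ⟨hk, h2⟩
      · exact Or.inl (by omega)
    have h2 := card_le_card h1
    have h3 := card_insert_le (N - 1) (T.filter (fun k => k + 1 < N))
    omega
  omega

end

end Pool.Agent.BalanWangSC
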