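import Pool.Agent.MP_686ee2_an.SC.Window

/-!
All windows together.
-/

set_option autoImplicit false
set_option maxHeartbeats 1000000

open Finset Matrix

namespace Pool.Agent.BalanWangSC

open Pool.Agent.BalanWang

/-- the block of window `i` in state `p` -/
def blk (n i : ℕ) (p : Fin (n + 1) × Fin (n + 1)) : Finset ℕ :=
  ZZ n (i * (4 * n + 2)) p.1 (2 * n - p.1 - p.2) p.2

lemma blk_mem {n i : ℕ} {p : Fin (n + 1) × Fin (n + 1)} {x : ℕ} (hx : x ∈ blk n i p) :
    i * (4 * n + 2) ≤ x ∧ x < i * (4 * n + 2) + (4 * n + 2) := by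
  have h1 := p.1.isLt
  have h2 := p.2.isLt
  unfold blk at hx
  rw [mem_ZZ] at hx
  omega

lemma blk_card {n i : ℕ} {p : Fin (n + 1) × Fin (n + 1)} : (blk n i p).card = 2 * n := by
  have h1 := p.1.isLt
  have h2 := p.2.isLt
  unfold blk
  rw [card_ZZ (by omega) (by omega) (by omega)]
  omega

lemma win_disj {c i j x : ℕ} (hij : i ≠ j) (h1 : i * c ≤ x) (h2 : x < i * c + c) (h3 : j * c ≤ x)
    (h4 : x < j * c + c) : False := by
  rcases lt_or_gt_of_ne hij with h | h
  · have : (i + 1) * c ≤ j * c := Nat.mul_le_mul_right _ h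
    rw [add_mul, one_mul] at this
    omega
  · have : (j + 1) * c ≤ i * c := Nat.mul_le_mul_right _ h
    rw [add_mul, one_mul] at this
    omega

/-- the full set -/
def Full (n J y0 : ℕ) (e : Fin J → Fin (n + 1) × Fin (n + 1)) : Finset ℕ :=
  Ico (J * (4 * n + 2)) (J * (4 * n + 2) + y0) ∪ univ.biUnion (fun i : Fin J => blk n i (e i))

/-- all but one window -/
def Rest (n J y0 : ℕ) (e : Fin J → Fin (n + 1) × Fin (n + 1)) (j : Fin J) : Finset ℕ :=
  Ico (J * (4 * n + 2)) (J * (4 * n + 2) + y0) ∪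
    ((univ : Finset (Fin J)).erase j).biUnion (fun i => blk n i (e i))

lemma win_lt {c J : ℕ} (i : Fin J) {x : ℕ} (hx : x < i.val * c + c) : x < J * c := by
  have : (i.val + 1) * c ≤ J * c := Nat.mul_le_mul_right _ i.isLt
  rw [add_mul, one_mul] at this
  omega

lemma full_sub {n J y0 N : ℕ} (hN : J * (4 * n + 2) + y0 ≤ N)
    (e : Fin J → Fin (n + 1) × Fin (n + 1)) : Full n J y0 e ⊆ range N := by
  intro x hx
  unfold Full at hx
  rw [mem_union, mem_Ico, mem_biUnion] at hx
  rw [mem_range]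
  rcases hx with hx | ⟨i, -, hi⟩
  · omega
  · have := win_lt i (blk_mem hi).2
    omega

lemma full_card {n J y0 : ℕ} (e : Fin J → Fin (n + 1) × Fin (n + 1)) :
    (Full n J y0 e).card = y0 + J * (2 * n) := by
  unfold Full
  rw [card_union_of_disjoint, card_biUnion]
  · simp only [blk_card, Nat.card_Ico, sum_const, card_univ, Fintype.card_fin, smul_eq_mul]
    omega
  · intro i _ j _ hij
    change Disjoint (blk n i (e i)) (blk n j (e j))
    rw [disjoint_left]
    intro x hx hy
    exact win_disj (fun h => hij (Fin.ext h)) (blk_mem hx).1 (blk_mem hx).2 (blk_mem hy).1 (blk_mem hy).2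
  · rw [disjoint_left]
    intro x hx hy
    rw [mem_Ico] at hx
    rw [mem_biUnion] at hy
    obtain ⟨i, -, hi⟩ := hy
    have := win_lt i (blk_mem hi).2
    omega

lemma full_update {n J y0 : ℕ} (e : Fin J → Fin (n + 1) × Fin (n + 1)) (j : Fin J)
    (p : Fin (n + 1) × Fin (n + 1)) :
    Full n J y0 (Function.update e j p) =
      TT (Rest n J y0 e j) n (j.val * (4 * n + 2)) (p.1.val, p.2.val) := by
  unfold Full TT Rest
  have h : (univ : Finset (Fin J)) = insert j (univ.erase j) := (insert_erase (mem_univ j)).symm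
  rw [h, biUnion_insert, Function.update_self]
  have h2 : (univ.erase j).biUnion (fun i : Fin J => blk n i (Function.update e j p i)) =
      (univ.erase j).biUnion (fun i : Fin J => blk n i (e i)) := by
    apply biUnion_congr rfl
    intro i hi
    rw [Function.update_of_ne (ne_of_mem_erase hi)]
  rw [erase_insert (notMem_erase _ _), h2]
  unfold blk
  ext x
  simp only [mem_union]
  tauto

lemma rest_sub {n J y0 : ℕ} (e : Fin J → Fin (n + 1) × Fin (n + 1)) (j : Fin J) :
    Rest n J y0 e j ⊆ Full n J y0 e := by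
  unfold Rest Full
  exact union_subset_union_right (biUnion_subset_biUnion_of_subset_left _ (erase_subset _ _))

lemma rest_avoid {n J y0 : ℕ} (e : Fin J → Fin (n + 1) × Fin (n + 1)) (j : Fin J) :
    ∀ y ∈ Rest n J y0 e j, ¬ (j.val * (4 * n + 2) ≤ y ∧ y < j.val * (4 * n + 2) + (4 * n + 2)) := by
  intro y hy h
  unfold Rest at hy
  rw [mem_union, mem_Ico, mem_biUnion] at hy
  rcases hy with hy | ⟨i, hi, hyi⟩
  · have := win_lt j h.2
    omega
  · exact win_disj (fun h => (ne_of_mem_erase hi) (Fin.ext h)) (blk_mem hyi).1 (blk_mem hyi).2 h.1 h.2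

lemma rest_card {n J y0 : ℕ} (e : Fin J → Fin (n + 1) × Fin (n + 1)) (j : Fin J) :
    (Rest n J y0 e j).card + 2 * n = y0 + J * (2 * n) := by
  have h1 := full_card (y0 := y0) (Function.update e j (e j))
  rw [full_update] at h1
  unfold TT at h1
  rw [card_union_of_disjoint, card_ZZ] at h1
  · rw [← h1]
    have h2 := (e j).1.isLt
    have h3 := (e j).2.isLt
    simp only
    omega
  · have h2 := (e j).1.isLt
    simp only
    omega
  · simp only
    omega
  · have h2 := (e j).2.isLt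
    simp only
    omega
  · rw [disjoint_left]
    intro y hy hy2
    exact rest_avoid e j y hy (blk_mem (p := e j) (i := j.val) hy2)

/-- **The windows theorem.** -/
theorem core {s : ℕ} (w : ℕ → Fin (s + 2) → ℝ) (N g : ℕ)
    (hspark : ∀ S ⊆ range N, S.card = s + 2 → PS w S ≠ 0)
    (hsc : ∀ x : Fin (s + 2) → ℝ, (∀ k < N, ev w x k ≠ 0) →
      ((range (N - 1)).filter (fun k => ev w x k * ev w x (k + 1) < 0)).card ≤ s + 1 + g)
    (K : ℝ) (hlip : ∀ T ⊆ range N, T.card = s + 1 → ∀ i < N, ∀ j < N, i ∉ T → j ∉ T →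
      |PS w (insert i T)| ≤ K * |PS w (insert j T)|)
    (n J : ℕ) (hJ : 0 < J) (y0 : ℕ) (hy0 : y0 + J * (2 * n) = s + 1)
    (hN : J * (4 * n + 2) + y0 ≤ N) :
    ∃ B : ℕ, J * B ≤ 2 * ((g + 1) * (n + 1) ^ 2) ∧
      ((n : ℝ) ^ 2 - B) * (2 * Real.log 2) ≤ 4 * n * Real.log K + 4 * Real.log K * B := by
  classical
  have hlo : ∀ i : Fin J, i.val * (4 * n + 2) + (4 * n + 2) ≤ N := by
    intro i
    have : (i.val + 1) * (4 * n + 2) ≤ J * (4 * n + 2) := Nat.mul_le_mul_right _ i.isLt
    rw [add_mul, one_mul] at this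
    omega
  have hsN : s + 1 < N := by
    have h1 : J * (2 * n) + J * (2 * n + 2) = J * (4 * n + 2) := by ring
    have h2 : 0 < J * (2 * n + 2) := Nat.mul_pos hJ (by omega)
    omega
  have hfew : ∀ e : Fin J → Fin (n + 1) × Fin (n + 1),
      (univ.filter (fun j : Fin J => Chg w (Full n J y0 e) (j.val * (4 * n + 2))
        (j.val * (4 * n + 2) + (4 * n + 2)))).card ≤ g + 1 := by
    intro e
    have := few_changes (s := s + 1) w N g hsN hspark hsc (Full n J y0 e) (full_sub hN e)
      (by rw [full_card, hy0]) (fun j : Fin J => j.val * (4 * n + 2))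
      (fun j : Fin J => j.val * (4 * n + 2) + (4 * n + 2)) hlo
      (by
        intro i j hij k hk
        exact win_disj (fun h => hij (Fin.ext h)) hk.1 hk.2.1 hk.2.2.1 hk.2.2.2)
    exact this
  obtain ⟨j, e, hje⟩ := exists_window hJ
    (fun (e : Fin J → Fin (n + 1) × Fin (n + 1)) (j : Fin J) =>
      Chg w (Full n J y0 e) (j.val * (4 * n + 2)) (j.val * (4 * n + 2) + (4 * n + 2))) (g + 1) hfew
  set Bx := univ.filter (fun x : Fin (n + 1) × Fin (n + 1) =>
    Chg w (Full n J y0 (Function.update e j x)) (j.val * (4 * n + 2))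
      (j.val * (4 * n + 2) + (4 * n + 2))) with hBx
  obtain ⟨B, hB1, hB2⟩ := one_window w N hspark K hlip n (j.val * (4 * n + 2)) (Rest n J y0 e j)
    ((rest_sub e j).trans (full_sub hN e)) (rest_avoid e j) (hlo j)
    (by rw [rest_card, hy0]) (Bx.image (fun x => (x.1.val, x.2.val))) (by
      intro p hp1 hp2 hp hchg
      apply hp
      rw [mem_image]
      refine ⟨(⟨p.1, by omega⟩, ⟨p.2, by omega⟩), ?_, rfl⟩
      rw [hBx, mem_filter]
      refine ⟨mem_univ _, ?_⟩
      rw [full_update]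
      exact hchg)
  refine ⟨B, ?_, hB2⟩
  have hc : (Bx.image (fun x => (x.1.val, x.2.val))).card ≤ Bx.card := card_image_le
  have hE : Fintype.card (Fin (n + 1) × Fin (n + 1)) = (n + 1) ^ 2 := by
    rw [Fintype.card_prod, Fintype.card_fin]; ring
  rw [hE] at hje
  calc J * B ≤ J * (2 * Bx.card) := Nat.mul_le_mul_left _ (by omega)
    _ = 2 * (J * Bx.card) := by ring
    _ ≤ 2 * ((g + 1) * (n + 1) ^ 2) := Nat.mul_le_mul_left _ hje

end Pool.Agent.BalanWangSC
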