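import Pool.Agent.MP_686ee2_an.SC.Core
import Pool.Agent.MP_686ee2_an.RC.Univ

/-!
The numbers, and the transfer to the matrix.
-/

set_option autoImplicit false
set_option maxHeartbeats 1000000

open Finset Matrix

namespace Pool.Agent.BalanWangSC

open Pool.Agent.BalanWang

/-- **The Lipschitz constant is big.** -/
theorem lip_big {s : ℕ} (w : ℕ → Fin (s + 2) → ℝ) (g : ℕ)
    (hspark : ∀ S ⊆ range (2 * s + 3), S.card = s + 2 → PS w S ≠ 0)
    (hsc : ∀ x : Fin (s + 2) → ℝ, (∀ k < 2 * s + 3, ev w x k ≠ 0) →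
      ((range (2 * s + 3 - 1)).filter (fun k => ev w x k * ev w x (k + 1) < 0)).card ≤ s + 1 + g)
    (K : ℝ) (hlip : ∀ T ⊆ range (2 * s + 3), T.card = s + 1 →
      ∀ i < 2 * s + 3, ∀ j < 2 * s + 3, i ∉ T → j ∉ T →
      |PS w (insert i T)| ≤ K * |PS w (insert j T)|)
    (hbig : 12 < Real.sqrt (((s : ℝ) + 2) / (g + 1))) :
    Real.log 2 * (Real.sqrt (((s : ℝ) + 2) / (g + 1)) / 12 - 1) < Real.log K := by
  set R := Real.sqrt (((s : ℝ) + 2) / (g + 1)) with hR
  have hg0 : (0 : ℝ) < (g : ℝ) + 1 := by positivity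
  have hR2 : R ^ 2 * ((g : ℝ) + 1) = (s : ℝ) + 2 := by
    rw [hR, Real.sq_sqrt (by positivity)]
    field_simp
  have hs8 : Real.sqrt 8 ^ 2 = 8 := Real.sq_sqrt (by norm_num)
  have hs8a : Real.sqrt 8 < 3 := by
    rw [Real.sqrt_lt' (by norm_num)]; norm_num
  have hs8b : 2 < Real.sqrt 8 := by
    rw [Real.lt_sqrt (by norm_num)]; norm_num
  have hs80 : 0 < Real.sqrt 8 := by linarith
  set q := ⌊R / Real.sqrt 8⌋₊ with hq
  have hqle : (q : ℝ) ≤ R / Real.sqrt 8 := Nat.floor_le (by positivity)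
  have hqlt : R / Real.sqrt 8 < q + 1 := Nat.lt_floor_add_one _
  have h4 : 4 < R / Real.sqrt 8 := by
    rw [lt_div_iff₀ hs80]; nlinarith
  have hq4 : 4 ≤ q := by
    rw [hq]; exact Nat.le_floor (by push_cast; linarith)
  have hq4' : (4 : ℝ) ≤ q := by exact_mod_cast hq4
  have hq8 : 8 * (g + 1) * q ^ 2 ≤ s + 2 := by
    have h1 : (q : ℝ) * Real.sqrt 8 ≤ R := (le_div_iff₀ hs80).1 hqle
    have h2 : ((q : ℝ) * Real.sqrt 8) ^ 2 ≤ R ^ 2 := pow_le_pow_left₀ (by positivity) h1 2
    rw [mul_pow, hs8] at h2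
    have h3 : (8 : ℝ) * (g + 1) * q ^ 2 ≤ s + 2 := by
      rw [← hR2]
      nlinarith
    exact_mod_cast h3
  clear_value q
  obtain ⟨n, rfl⟩ : ∃ n, q = n + 1 := ⟨q - 1, by omega⟩
  set J := (s + 2) / (2 * (n + 1)) with hJ
  have hJ1 : 2 * (n + 1) * J ≤ s + 2 := Nat.mul_div_le _ _
  have hJ2 : s + 2 < 2 * (n + 1) * (J + 1) := Nat.lt_mul_div_succ _ (by omega)
  have hge : 2 * (n + 1) ≤ s + 2 := by
    have h1 : 2 * (n + 1) * 1 ≤ 8 * (g + 1) * (n + 1) ^ 2 := by
      have : 2 * (n + 1) * 1 ≤ 2 * (n + 1) * (4 * (g + 1) * (n + 1)) :=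
        Nat.mul_le_mul_left _ (by
          have : 1 ≤ (g + 1) * (n + 1) := Nat.mul_pos (by omega) (by omega)
          nlinarith)
      calc 2 * (n + 1) * 1 ≤ 2 * (n + 1) * (4 * (g + 1) * (n + 1)) := this
        _ = _ := by ring
    omega
  have hJpos : 0 < J := Nat.div_pos hge (by omega)
  have hJ1' : J * (2 * n) + J * 2 ≤ s + 2 := by
    have : 2 * (n + 1) * J = J * (2 * n) + J * 2 := by ring
    omega
  obtain ⟨B, hB1, hB2⟩ := core w (2 * s + 3) g hspark hsc K hlip n J hJpos (s + 1 - J * (2 * n))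
    (by omega) (by
      have : J * (4 * n + 2) = J * (2 * n) + J * (2 * n) + J * 2 := by ring
      omega)
  have hBn : B ≤ n + 1 := by
    by_contra hcon
    push Not at hcon
    have e1 : J * (n + 2) ≤ J * B := Nat.mul_le_mul_left _ hcon
    have e2 : 4 * (n + 1) * (J * (n + 2)) ≤ 4 * (n + 1) * (2 * ((g + 1) * (n + 1) ^ 2)) :=
      Nat.mul_le_mul_left _ (e1.trans hB1)
    have e3 : 4 * (n + 1) * (2 * ((g + 1) * (n + 1) ^ 2)) = 8 * (g + 1) * (n + 1) ^ 2 * (n + 1) := by ring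
    have e4 : 8 * (g + 1) * (n + 1) ^ 2 * (n + 1) ≤ (s + 2) * (n + 1) := Nat.mul_le_mul_right _ hq8
    have e5 : (s + 2) * (n + 1) < 2 * (n + 1) * (J + 1) * (n + 1) :=
      Nat.mul_lt_mul_of_pos_right hJ2 (by omega)
    have e6 : 2 * (n + 1) * (J + 1) * (n + 1) ≤ 2 * (n + 1) * (2 * J) * (n + 1) :=
      Nat.mul_le_mul_right _ (Nat.mul_le_mul_left _ (by omega))
    have e7 : 2 * (n + 1) * (2 * J) * (n + 1) = 4 * (n + 1) * (J * (n + 1)) := by ring
    have e8 : 4 * (n + 1) * (J * (n + 1)) ≤ 4 * (n + 1) * (J * (n + 2)) :=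
      Nat.mul_le_mul_left _ (Nat.mul_le_mul_left _ (by omega))
    omega
  have hBn' : (B : ℝ) ≤ n + 1 := by exact_mod_cast hBn
  have hn3 : (3 : ℝ) ≤ n := by
    have : 3 ≤ n := by omega
    exact_mod_cast this
  have hlog2 : 0 < Real.log 2 := Real.log_pos (by norm_num)
  have hB0 : (0 : ℝ) ≤ B := Nat.cast_nonneg _
  have hKpos : 0 < Real.log K := by
    by_contra hcon
    push Not at hcon
    have h1 : 0 < ((n : ℝ) ^ 2 - B) * (2 * Real.log 2) := mul_pos (by nlinarith) (by positivity)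
    have h2 : 4 * (n : ℝ) * Real.log K + 4 * Real.log K * B ≤ 0 := by nlinarith
    linarith
  have hmain : ((n : ℝ) - 2) * Real.log 2 ≤ 4 * Real.log K := by
    have h1 : ((n : ℝ) ^ 2 - (n + 1)) * (2 * Real.log 2) ≤ 4 * Real.log K * (2 * n + 1) := by
      calc ((n : ℝ) ^ 2 - (n + 1)) * (2 * Real.log 2) ≤ ((n : ℝ) ^ 2 - B) * (2 * Real.log 2) := by
            refine mul_le_mul_of_nonneg_right (by linarith) (by positivity)
        _ ≤ 4 * n * Real.log K + 4 * Real.log K * B := hB2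
        _ ≤ 4 * Real.log K * (2 * n + 1) := by nlinarith
    have h2 : ((n : ℝ) - 2) * Real.log 2 * (2 * n + 1) ≤ 4 * Real.log K * (2 * n + 1) := by
      refine le_trans ?_ h1
      nlinarith
    exact le_of_mul_le_mul_right h2 (by positivity)
  push_cast at hqlt
  have hfin : R / 12 - 1 < ((n : ℝ) - 2) / 4 := by
    have h1 : R / 3 < R / Real.sqrt 8 := by
      apply div_lt_div_of_pos_left (by linarith) hs80 hs8a
    linarith
  calc Real.log 2 * (R / 12 - 1) < Real.log 2 * (((n : ℝ) - 2) / 4) :=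
        mul_lt_mul_of_pos_left hfin hlog2
    _ ≤ Real.log K := by linarith

open Pool.Agent.BalanWangRC (Concl)

lemma concl_mono {M : ℕ} {A : Matrix (Fin (2 * M - 1)) (Fin M) ℝ} {b c : ℝ} (h : Concl A b)
    (hbc : b ≤ c) : Concl A c := by
  obtain ⟨S, hS, x, hx, k, hk⟩ := h
  exact ⟨S, hS, x, hx, k, hk.trans (mul_le_mul_of_nonneg_right hbc (Real.sqrt_nonneg _))⟩

open Classical in
/-- The number of sign changes of a finite sequence: the number of pairs of neighbouring entries of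
opposite sign. -/
noncomputable def signChanges {n : ℕ} (v : Fin n → ℝ) : ℕ :=
  (univ.filter (fun p : Fin n × Fin n => p.2.val = p.1.val + 1 ∧ v p.1 * v p.2 < 0)).card

/-- A vector which vanishes on `T` and is small at `j` compared with `i`. -/
lemma concl_of_vector {M : ℕ} (hM : 1 ≤ M) (A : Matrix (Fin (2 * M - 1)) (Fin M) ℝ)
    (S : Finset (Fin (2 * M - 1))) (hS : S.card = M) (x0 : Fin M → ℝ) (hx0 : 0 < ∑ j, x0 j ^ 2)
    (i j : Fin (2 * M - 1)) (hj : j ∈ S) (hz : ∀ k ∈ S, k ≠ j → ∑ l, A k l * x0 l = 0)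
    (b : ℝ) (hb : 0 ≤ b) (hij : |∑ l, A j l * x0 l| ≤ b * |∑ l, A i l * x0 l|) : Concl A b := by
  classical
  have h1 : ∑ k ∈ S, (∑ l, A k l * x0 l) ^ 2 = (∑ l, A j l * x0 l) ^ 2 := by
    rw [sum_eq_single j]
    · intro k hk hkj
      rw [hz k hk hkj]; ring
    · intro h; exact absurd hj h
  have h2 : (∑ l, A i l * x0 l) ^ 2 ≤ (∑ l, A i l ^ 2) * ∑ l, x0 l ^ 2 :=
    Finset.sum_mul_sq_le_sq_mul_sq univ (fun l => A i l) x0
  obtain ⟨x, hx1, hx2⟩ := Pool.Agent.BalanWangRC.normalise A S x0 hx0 (b ^ 2 * ∑ l, A i l ^ 2) (by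
    rw [h1, ← sq_abs]
    calc |∑ l, A j l * x0 l| ^ 2 ≤ (b * |∑ l, A i l * x0 l|) ^ 2 :=
          pow_le_pow_left₀ (abs_nonneg _) hij 2
      _ = b ^ 2 * (∑ l, A i l * x0 l) ^ 2 := by rw [mul_pow, sq_abs]
      _ ≤ b ^ 2 * ((∑ l, A i l ^ 2) * ∑ l, x0 l ^ 2) := mul_le_mul_of_nonneg_left h2 (sq_nonneg _)
      _ = _ := by ring)
  refine ⟨S, Pool.Agent.BalanWangRC.rank_lt hM A S hS, x, hx1, i, ?_⟩
  calc Real.sqrt (∑ i ∈ S, (∑ j, A i j * x j) ^ 2) ≤ Real.sqrt (b ^ 2 * ∑ l, A i l ^ 2) :=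
        Real.sqrt_le_sqrt hx2
    _ = b * Real.sqrt (∑ l, A i l ^ 2) := by
        rw [Real.sqrt_mul (sq_nonneg _), Real.sqrt_sq hb]

/-- **Few sign changes.** -/
theorem few_sign_changes (M : ℕ) (hM : 1 < M) (A : Matrix (Fin (2 * M - 1)) (Fin M) ℝ) (g : ℕ)
    (π : Equiv.Perm (Fin (2 * M - 1))) (η : Fin (2 * M - 1) → ℝ) (hη : ∀ k, η k = 1 ∨ η k = -1)
    (hA : ∀ x : Fin M → ℝ, (∀ k, ∑ j, A k j * x j ≠ 0) →
      signChanges (fun k => η k * ∑ j, A (π k) j * x j) ≤ M - 1 + g) :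
    Concl A (2 * (1 / 2 : ℝ) ^ (Real.sqrt (M / (g + 1)) / 12)) := by
  classical
  obtain ⟨s, rfl⟩ : ∃ s, M = s + 2 := ⟨M - 2, by omega⟩
  set b : ℝ := 2 * (1 / 2 : ℝ) ^ (Real.sqrt ((s + 2 : ℕ) / (g + 1)) / 12) with hb
  have hbpos : 0 < b := by positivity
  rcases le_or_gt 1 b with hb1 | hb1
  · exact concl_mono (Pool.Agent.BalanWangRC.trivial_bound (by omega) A) hb1
  have hη0 : ∀ k, η k ≠ 0 := by
    intro k
    rcases hη k with h | h <;> rw [h] <;> norm_num
  have hηa : ∀ k, |η k| = 1 := by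
    intro k
    rcases hη k with h | h <;> rw [h] <;> norm_num
  have hlogb : Real.log b = Real.log 2 - Real.sqrt ((s + 2 : ℕ) / (g + 1)) / 12 * Real.log 2 := by
    rw [hb, Real.log_mul (by norm_num) (by positivity), Real.log_rpow (by norm_num), one_div,
      Real.log_inv]
    ring
  have hlog2 : 0 < Real.log 2 := Real.log_pos (by norm_num)
  have hbig : 12 < Real.sqrt ((s + 2 : ℕ) / (g + 1)) := by
    have h := Real.log_neg hbpos hb1
    rw [hlogb] at h
    by_contra hcon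
    push Not at hcon
    have : Real.sqrt ((s + 2 : ℕ) / (g + 1)) / 12 * Real.log 2 ≤ 1 * Real.log 2 :=
      mul_le_mul_of_nonneg_right (by linarith) hlog2.le
    linarith
  have e2M : 2 * (s + 2) - 1 = 2 * s + 3 := by omega
  -- the rows
  set w : ℕ → Fin (s + 2) → ℝ := fun k => if h : k < 2 * (s + 2) - 1 then
    fun j => η ⟨k, h⟩ * A (π ⟨k, h⟩) j else 0 with hw
  have hev : ∀ (x : Fin (s + 2) → ℝ) (k : ℕ) (h : k < 2 * (s + 2) - 1),
      ev w x k = η ⟨k, h⟩ * ∑ j, A (π ⟨k, h⟩) j * x j := by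
    intro x k h
    unfold ev
    rw [mul_sum]
    refine sum_congr rfl fun j _ => ?_
    rw [hw]
    simp only
    rw [dif_pos h]
    ring
  have hevabs : ∀ (x : Fin (s + 2) → ℝ) (k : ℕ) (h : k < 2 * (s + 2) - 1),
      |ev w x k| = |∑ j, A (π ⟨k, h⟩) j * x j| := by
    intro x k h
    rw [hev x k h, abs_mul, hηa, one_mul]
  -- the sets
  have hSt : ∀ S ⊆ range (2 * s + 3), S.card = s + 2 →
      (univ.filter (fun k : Fin (2 * (s + 2) - 1) => (π.symm k).val ∈ S)).card = s + 2 := by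
    intro S hS hSc
    refine Eq.trans ?_ hSc
    refine Finset.card_nbij (fun k => (π.symm k).val) ?_ ?_ ?_
    · intro k hk
      exact (mem_filter.1 hk).2
    · intro k _ l _ hkl
      exact π.symm.injective (Fin.ext hkl)
    · intro k hk
      have hk' : k ∈ S := hk
      have hkN : k < 2 * (s + 2) - 1 := by
        have := mem_range.1 (hS hk')
        omega
      refine ⟨π ⟨k, hkN⟩, ?_, ?_⟩
      · simp only [coe_filter, mem_univ, true_and, Set.mem_setOf_eq, Equiv.symm_apply_apply]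
        exact hk'
      · simp only [Equiv.symm_apply_apply]
  have hpos : ∀ x : Fin (s + 2) → ℝ, x ≠ 0 → 0 < ∑ j, x j ^ 2 := by
    intro x hx
    obtain ⟨j, hj⟩ : ∃ j, x j ≠ 0 := by
      by_contra hcon
      push Not at hcon
      exact hx (funext hcon)
    exact Finset.sum_pos' (fun _ _ => sq_nonneg _) ⟨j, Finset.mem_univ _, by positivity⟩
  by_cases hspark : ∀ S ⊆ range (2 * s + 3), S.card = s + 2 → PS w S ≠ 0
  swap
  · push Not at hspark
    obtain ⟨S, hS, hSc, h0⟩ := hspark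
    unfold PS at h0
    rw [dif_pos hSc] at h0
    unfold DR at h0
    obtain ⟨v, hv, hv0⟩ := Matrix.exists_mulVec_eq_zero_iff.2 h0
    have hv1 : ∀ k ∈ S, ev w v k = 0 := by
      intro k hk
      obtain ⟨i, hi⟩ : ∃ i, S.orderEmbOfFin hSc i = k := by
        have : k ∈ Set.range (S.orderEmbOfFin hSc) := by
          rw [range_orderEmbOfFin]; exact hk
        exact this
      rw [← hi]
      exact congrFun hv0 i
    have hz : ∀ k ∈ univ.filter (fun k : Fin (2 * (s + 2) - 1) => (π.symm k).val ∈ S),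
        ∑ l, A k l * v l = 0 := by
      intro k hk
      have h1 := hv1 _ (mem_filter.1 hk).2
      rw [hev v _ (π.symm k).isLt] at h1
      have h2 : π ⟨(π.symm k).val, (π.symm k).isLt⟩ = k := by
        rw [Fin.eta, Equiv.apply_symm_apply]
      rw [h2] at h1
      exact (mul_eq_zero.1 h1).resolve_left (hη0 _)
    obtain ⟨j, hj⟩ : (univ.filter (fun k : Fin (2 * (s + 2) - 1) => (π.symm k).val ∈ S)).Nonempty := by
      rw [← card_pos, hSt S hS hSc]; omega
    exact concl_of_vector (by omega) A _ (hSt S hS hSc) v (hpos v hv) j j hj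
      (fun k hk _ => hz k hk) b hbpos.le (by rw [hz j hj, abs_zero, mul_zero])
  by_contra hcon
  have hlip : ∀ T ⊆ range (2 * s + 3), T.card = s + 1 →
      ∀ i < 2 * s + 3, ∀ j < 2 * s + 3, i ∉ T → j ∉ T →
      |PS w (insert i T)| ≤ b⁻¹ * |PS w (insert j T)| := by
    intro T hT hTc i hi j hj hiT hjT
    by_contra hlt
    push Not at hlt
    apply hcon
    have hij : |PS w (insert j T)| ≤ b * |PS w (insert i T)| := by
      have := mul_le_mul_of_nonneg_left hlt.le hbpos.le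
      rw [← mul_assoc, mul_inv_cancel₀ hbpos.ne', one_mul] at this
      exact this
    obtain ⟨x0, hx0⟩ := exists_cofactor w (T.orderEmbOfFin hTc)
    have hx1 : ∀ k ∉ T, |ev w x0 k| = |PS w (insert k T)| := by
      intro k hk
      rw [hx0, PS_one w hTc hk, abs_mul, sg_abs, one_mul]
    have hx2 : ∀ k ∈ T, ev w x0 k = 0 := by
      intro k hk
      obtain ⟨l, hl⟩ : ∃ l, T.orderEmbOfFin hTc l = k := by
        have : k ∈ Set.range (T.orderEmbOfFin hTc) := by
          rw [range_orderEmbOfFin]; exact hk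
        exact this
      rw [hx0]
      unfold DR
      refine Matrix.det_zero_of_row_eq (i := 0) (j := l.succ) (Fin.succ_ne_zero l).symm ?_
      ext m
      simp only [Matrix.of_apply, Fin.cons_zero, Fin.cons_succ]
      rw [hl]
    have hiN : i < 2 * (s + 2) - 1 := by omega
    have hjN : j < 2 * (s + 2) - 1 := by omega
    have hinsj : insert j T ⊆ range (2 * s + 3) := by
      intro y hy
      rcases mem_insert.1 hy with rfl | hy
      · exact mem_range.2 hj
      · exact hT hy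
    have hinsi : insert i T ⊆ range (2 * s + 3) := by
      intro y hy
      rcases mem_insert.1 hy with rfl | hy
      · exact mem_range.2 hi
      · exact hT hy
    have hinsjc : (insert j T).card = s + 2 := by rw [card_insert_of_notMem hjT, hTc]
    have hinsic : (insert i T).card = s + 2 := by rw [card_insert_of_notMem hiT, hTc]
    have hx0ne : x0 ≠ 0 := by
      intro h0
      have h1 := hx1 i hiT
      have h2 : ev w x0 i = 0 := by
        rw [h0]; unfold ev; simp
      rw [h2, abs_zero] at h1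
      exact hspark _ hinsi hinsic (abs_eq_zero.1 h1.symm)
    refine concl_of_vector (by omega) A _ (hSt _ hinsj hinsjc) x0 (hpos x0 hx0ne) (π ⟨i, hiN⟩)
      (π ⟨j, hjN⟩) ?_ ?_ b hbpos.le ?_
    · rw [mem_filter]
      refine ⟨mem_univ _, ?_⟩
      rw [Equiv.symm_apply_apply]
      exact mem_insert_self _ _
    · intro k hk hkj
      have h1 := (mem_filter.1 hk).2
      have h2 : π ⟨(π.symm k).val, (π.symm k).isLt⟩ = k := by
        rw [Fin.eta, Equiv.apply_symm_apply]
      have h3 : (π.symm k).val ∈ T := by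
        rcases mem_insert.1 h1 with h | h
        · exfalso
          apply hkj
          rw [← h2]
          congr 1
          exact Fin.ext h
        · exact h
      have h4 := hx2 _ h3
      rw [hev x0 _ (π.symm k).isLt, h2] at h4
      exact (mul_eq_zero.1 h4).resolve_left (hη0 _)
    · rw [← hevabs x0 i hiN, ← hevabs x0 j hjN, hx1 i hiT, hx1 j hjT]
      exact hij
  have hsc : ∀ x : Fin (s + 2) → ℝ, (∀ k < 2 * s + 3, ev w x k ≠ 0) →
      ((range (2 * s + 3 - 1)).filter (fun k => ev w x k * ev w x (k + 1) < 0)).card ≤ s + 1 + g := by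
    intro x hx
    have h1 := hA x (by
      intro k
      have h1 := hx (π.symm k).val (by have := (π.symm k).isLt; omega)
      rw [hev x _ (π.symm k).isLt] at h1
      have h2 : π ⟨(π.symm k).val, (π.symm k).isLt⟩ = k := by
        rw [Fin.eta, Equiv.apply_symm_apply]
      rw [h2] at h1
      exact right_ne_zero_of_mul h1)
    have h2 : s + 2 - 1 + g = s + 1 + g := by omega
    rw [h2] at h1
    refine le_trans ?_ h1
    unfold signChanges
    refine Finset.card_le_card_of_injOn (fun k => if h : k + 1 < 2 * (s + 2) - 1 then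
      ((⟨k, by omega⟩, ⟨k + 1, h⟩) : Fin (2 * (s + 2) - 1) × Fin (2 * (s + 2) - 1))
      else (⟨0, by omega⟩, ⟨0, by omega⟩)) ?_ ?_
    · intro k hk
      have hk1 := mem_filter.1 hk
      have hk2 : k + 1 < 2 * (s + 2) - 1 := by
        have := mem_range.1 hk1.1
        omega
      simp only [dif_pos hk2, coe_filter, mem_univ, true_and, Set.mem_setOf_eq]
      have h3 := hk1.2
      rw [hev x k (by omega), hev x (k + 1) hk2] at h3
      exact h3
    · intro k hk l hl hkl
      have hk1 := mem_filter.1 hk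
      have hl1 := mem_filter.1 hl
      have hk2 : k + 1 < 2 * (s + 2) - 1 := by
        have := mem_range.1 hk1.1
        omega
      have hl2 : l + 1 < 2 * (s + 2) - 1 := by
        have := mem_range.1 hl1.1
        omega
      simp only [dif_pos hk2, dif_pos hl2, Prod.mk.injEq, Fin.mk.injEq] at hkl
      exact hkl.1
  have hcast : (((s + 2 : ℕ) : ℝ)) = (s : ℝ) + 2 := by push_cast; ring
  have hfin := lip_big w g hspark hsc b⁻¹ hlip (by rw [← hcast]; exact hbig)
  rw [← hcast, Real.log_inv, hlogb] at hfin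
  linarith

end Pool.Agent.BalanWangSC
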