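import Pool.Agent.MP_686ee2_an.TP.Data2

/-!
Signed maximal minors with sorted rows.
-/

set_option autoImplicit false

open Finset Matrix

namespace Pool.Agent.BalanWangSC

open Pool.Agent.BalanWang

section

variable {r : ℕ}

/-- the determinant of the rows `w (u i)` -/
noncomputable def DR (w : ℕ → Fin r → ℝ) (u : Fin r → ℕ) : ℝ :=
  (Matrix.of (fun i => w (u i))).det

lemma DR_perm (w : ℕ → Fin r → ℝ) (σ : Equiv.Perm (Fin r)) (u : Fin r → ℕ) :
    DR w (u ∘ σ) = (Equiv.Perm.sign σ : ℤ) * DR w u := by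
  unfold DR
  have h := det_permute σ (Matrix.of (fun i => w (u i)))
  rw [← h]
  congr 1

/-- the determinant of the rows in `S`, in increasing order -/
noncomputable def PS (w : ℕ → Fin r → ℝ) (S : Finset ℕ) : ℝ :=
  if h : S.card = r then DR w (S.orderEmbOfFin h) else 0

lemma PS_VV (w : ℕ → Fin r → ℝ) {u : Fin r → ℕ} (hu : Function.Injective u) {S : Finset ℕ}
    (hS : ∀ i, u i ∈ S) (hc : S.card = r) : PS w S * |VV u| = DR w u * VV u := by
  unfold PS
  rw [dif_pos hc]
  have h := orderEmbOfFin_unique hc (f := u ∘ Tuple.sort u) (fun i => hS _) (sort_strictMono hu)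
  have h2 := VV_pos (sort_strictMono hu)
  rw [VV_perm] at h2
  rw [← h, DR_perm]
  rcases Int.units_eq_one_or (Equiv.Perm.sign (Tuple.sort u)) with h3 | h3
  · rw [h3] at h2 ⊢
    simp only [Units.val_one, Int.cast_one, one_mul] at h2 ⊢
    rw [abs_of_pos h2]
  · rw [h3] at h2 ⊢
    simp only [Units.val_neg, Units.val_one, Int.cast_neg, Int.cast_one, neg_mul, one_mul] at h2 ⊢
    rw [abs_of_neg (by linarith)]
    ring

end

/-- sign of the product of the differences -/
lemma prod_sign (T : Finset ℕ) (k : ℕ) (hk : k ∉ T) :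
    0 < (∏ t ∈ T, ((t : ℝ) - k)) * (-1) ^ (T.filter (· < k)).card := by
  induction T using Finset.induction_on with
  | empty => simp
  | insert t T ht ih =>
    rw [mem_insert, not_or] at hk
    have ih := ih hk.2
    rw [prod_insert ht, filter_insert]
    by_cases h : t < k
    · rw [if_pos h, card_insert_of_notMem (by simp [ht]), pow_succ]
      have h1 : (t : ℝ) < k := by exact_mod_cast h
      have h2 : 0 < ((k : ℝ) - t) * ((∏ t ∈ T, ((t : ℝ) - k)) * (-1) ^ (T.filter (· < k)).card) :=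
        mul_pos (by linarith) ih
      calc (0 : ℝ) < _ := h2
        _ = _ := by ring
    · rw [if_neg h]
      have h1 : (k : ℝ) < t := by
        have : k < t := by omega
        exact_mod_cast this
      have h2 : 0 < ((t : ℝ) - k) * ((∏ t ∈ T, ((t : ℝ) - k)) * (-1) ^ (T.filter (· < k)).card) :=
        mul_pos (by linarith) ih
      calc (0 : ℝ) < _ := h2
        _ = _ := by ring

lemma prod_orderEmb {s : ℕ} {T : Finset ℕ} (hT : T.card = s) (f : ℕ → ℝ) :
    ∏ i, f (T.orderEmbOfFin hT i) = ∏ t ∈ T, f t := by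
  have h : T = univ.image (T.orderEmbOfFin hT) := by
    ext x
    simp only [mem_image, mem_univ, true_and]
    have := range_orderEmbOfFin T hT
    constructor
    · intro hx
      have h2 : x ∈ Set.range (T.orderEmbOfFin hT) := by rw [this]; exact_mod_cast hx
      exact h2
    · rintro ⟨i, rfl⟩
      exact orderEmbOfFin_mem _ _ _
  conv_rhs => rw [h]
  rw [prod_image (fun a _ b _ hab => (T.orderEmbOfFin hT).injective hab)]

/-- a number with the sign of `∏ (t - k)` -/
noncomputable def sg (T : Finset ℕ) (k : ℕ) : ℝ := (-1) ^ (T.filter (· < k)).card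

lemma sg_sq (T : Finset ℕ) (k : ℕ) : sg T k * sg T k = 1 := by
  unfold sg
  rw [← mul_pow]
  norm_num

lemma sg_abs (T : Finset ℕ) (k : ℕ) : |sg T k| = 1 := by
  unfold sg
  rw [abs_pow]
  norm_num

lemma sg_prod (T : Finset ℕ) (k : ℕ) (hk : k ∉ T) :
    |∏ t ∈ T, ((t : ℝ) - k)| = sg T k * ∏ t ∈ T, ((t : ℝ) - k) := by
  have h := prod_sign T k hk
  rw [mul_comm] at h
  have h2 : |sg T k * ∏ t ∈ T, ((t : ℝ) - k)| = sg T k * ∏ t ∈ T, ((t : ℝ) - k) := abs_of_pos h
  rw [abs_mul, sg_abs, one_mul] at h2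
  exact h2

/-- one row in front -/
lemma PS_one {s : ℕ} (w : ℕ → Fin (s + 1) → ℝ) {T : Finset ℕ} (hT : T.card = s) {k : ℕ}
    (hk : k ∉ T) :
    PS w (insert k T) = sg T k * DR w (Fin.cons k (T.orderEmbOfFin hT)) := by
  set t : Fin s → ℕ := ⇑(T.orderEmbOfFin hT) with ht
  have htT : ∀ l, t l ∈ T := fun l => orderEmbOfFin_mem _ _ _
  have hti : Function.Injective t := (T.orderEmbOfFin hT).injective
  have hinj : Function.Injective (Fin.cons k t : Fin (s + 1) → ℕ) := by
    rw [Fin.cons_injective_iff]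
    refine ⟨?_, hti⟩
    rintro ⟨l, hl⟩
    exact hk (hl ▸ htT l)
  have h := PS_VV w hinj (S := insert k T) (by
    intro i
    refine Fin.cases ?_ (fun l => ?_) i
    · simp
    · simp [htT l]) (by rw [card_insert_of_notMem hk, hT])
  have hp : ∏ i, ((t i : ℝ) - k) = ∏ x ∈ T, ((x : ℝ) - k) := prod_orderEmb hT (fun x => (x : ℝ) - k)
  have hV : 0 < VV t := VV_pos (T.orderEmbOfFin hT).strictMono
  have hne : ∏ x ∈ T, ((x : ℝ) - k) ≠ 0 := by
    intro h0
    have := prod_sign T k hk
    rw [h0, zero_mul] at this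
    exact lt_irrefl _ this
  rw [VV_cons, hp, abs_mul, abs_of_pos hV, sg_prod T k hk] at h
  have h2 : (PS w (insert k T) * sg T k) * ((∏ x ∈ T, ((x : ℝ) - k)) * VV t)
      = DR w (Fin.cons k t) * ((∏ x ∈ T, ((x : ℝ) - k)) * VV t) := by
    rw [← h]; ring
  have h3 := mul_right_cancel₀ (mul_ne_zero hne hV.ne') h2
  rw [← h3]
  calc PS w (insert k T) = PS w (insert k T) * (sg T k * sg T k) := by rw [sg_sq, mul_one]
    _ = _ := by ring

/-- two rows in front -/
lemma PS_two {s : ℕ} (w : ℕ → Fin (s + 2) → ℝ) {X : Finset ℕ} (hX : X.card = s) {a b : ℕ}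
    (hab : a < b) (ha : a ∉ X) (hb : b ∉ X) :
    PS w (insert a (insert b X)) = sg X a * sg X b * DR w (c2 (X.orderEmbOfFin hX) a b) := by
  set x : Fin s → ℕ := ⇑(X.orderEmbOfFin hX) with hx
  have hxX : ∀ i, x i ∈ X := fun i => orderEmbOfFin_mem _ _ _
  have hxi : Function.Injective x := (X.orderEmbOfFin hX).injective
  have hne' : ∀ {e : ℕ}, e ∉ X → ∀ i, x i ≠ e := by
    intro e he i h
    exact he (h ▸ hxX i)
  have h := PS_VV w (c2_inj hxi hab.ne (hne' ha) (hne' hb)) (S := insert a (insert b X)) (by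
    refine c2_forall ?_ ?_ ?_
    · simp
    · simp
    · intro i
      simp [hxX i]) (by
    rw [card_insert_of_notMem, card_insert_of_notMem hb, hX]
    rw [mem_insert, not_or]
    exact ⟨hab.ne, ha⟩)
  have hpa : ∏ i, ((x i : ℝ) - a) = ∏ y ∈ X, ((y : ℝ) - a) := prod_orderEmb hX (fun y => (y : ℝ) - a)
  have hpb : ∏ i, ((x i : ℝ) - b) = ∏ y ∈ X, ((y : ℝ) - b) := prod_orderEmb hX (fun y => (y : ℝ) - b)
  have hV : 0 < VV x := VV_pos (X.orderEmbOfFin hX).strictMono
  have hba : (0 : ℝ) < (b : ℝ) - a := by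
    have : (a : ℝ) < b := by exact_mod_cast hab
    linarith
  have hne : ∀ {k : ℕ}, k ∉ X → ∏ y ∈ X, ((y : ℝ) - k) ≠ 0 := by
    intro k hk h0
    have := prod_sign X k hk
    rw [h0, zero_mul] at this
    exact lt_irrefl _ this
  rw [VV_c2, hpa, hpb, abs_mul, abs_mul, abs_mul, abs_of_pos hV, abs_of_pos hba, sg_prod X a ha,
    sg_prod X b hb] at h
  set pa := ∏ y ∈ X, ((y : ℝ) - a) with hpa'
  set pb := ∏ y ∈ X, ((y : ℝ) - b) with hpb'
  have h2 : (PS w (insert a (insert b X)) * (sg X a * sg X b)) * (((b : ℝ) - a) * pa * pb * VV x)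
      = DR w (c2 x a b) * (((b : ℝ) - a) * pa * pb * VV x) := by
    rw [← h]; ring
  have h3 := mul_right_cancel₀ (mul_ne_zero (mul_ne_zero (mul_ne_zero hba.ne' (hne ha)) (hne hb))
    hV.ne') h2
  rw [← h3]
  calc PS w (insert a (insert b X))
      = PS w (insert a (insert b X)) * (sg X a * sg X a) * (sg X b * sg X b) := by
        rw [sg_sq, sg_sq, mul_one, mul_one]
    _ = _ := by ring

lemma DR_c2 {s : ℕ} (w : ℕ → Fin (s + 2) → ℝ) (x : Fin s → ℕ) (a b : ℕ) :
    DR w (c2 x a b) = WW (Matrix.of (fun i => w (c2 x 0 0 i))) 0 1 (w a) (w b) := by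
  unfold DR WW
  congr 1
  ext i j
  refine Fin.cases ?_ (fun i => ?_) i
  · rw [updateRow_ne (by simp), updateRow_self]
    simp [c2]
  · refine Fin.cases ?_ (fun i => ?_) i
    · have : (Fin.succ 0 : Fin (s + 2)) = 1 := rfl
      rw [this, updateRow_self]
      rfl
    · rw [updateRow_ne, updateRow_ne]
      · rfl
      · exact Fin.succ_ne_zero _
      · intro h
        exact Fin.succ_ne_zero i (Fin.succ_injective _ h)

/-- **Signed three-term relation.** -/
theorem three_signed {s : ℕ} (w : ℕ → Fin (s + 2) → ℝ) {X : Finset ℕ} (hX : X.card = s)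
    {a b c d : ℕ} (hab : a < b) (hbc : b < c) (hcd : c < d) (ha : a ∉ X) (hb : b ∉ X) (hc : c ∉ X)
    (hd : d ∉ X) :
    PS w (insert a (insert c X)) * PS w (insert b (insert d X)) =
      PS w (insert a (insert b X)) * PS w (insert c (insert d X)) +
        PS w (insert a (insert d X)) * PS w (insert b (insert c X)) := by
  rw [PS_two w hX (hab.trans hbc) ha hc, PS_two w hX (hbc.trans hcd) hb hd, PS_two w hX hab ha hb,
    PS_two w hX hcd hc hd, PS_two w hX (hab.trans (hbc.trans hcd)) ha hd, PS_two w hX hbc hb hc]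
  have hpl := plucker3 (Matrix.of (fun i => w (c2 (X.orderEmbOfFin hX) 0 0 i)))
    (p := 0) (q := 1) (by simp) (w a) (w b) (w c) (w d)
  simp only [← DR_c2] at hpl
  linear_combination (sg X a * sg X b * sg X c * sg X d) * hpl

end Pool.Agent.BalanWangSC
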