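import Mathlib

/-!
Two-dimensional telescoping for three-term relations, with exceptional places; averaging over windows.
-/

set_option autoImplicit false

open Finset

namespace Pool.Agent.BalanWangSC

/-- The two cross ratios at a place. -/
def crossSum (F G : ℕ → ℕ → ℝ) (a c : ℕ) : ℝ :=
  (F (a + 1) c + G a (c + 1) + G (a + 1) c + F a (c + 1)) - 2 * (F (a + 1) (c + 1) + G a c)

/-- **Telescoping.** `F`, `G` are logarithms of minors; exchanges cost at most `L`; at every good place the
sum of the logarithms of the two cross ratios is at most `-2 log 2`. -/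
lemma telescope (n : ℕ) (F G : ℕ → ℕ → ℝ) (L : ℝ)
    (h1 : ∀ a ≤ n, ∀ c < n, |G a c - F a (c + 1)| ≤ L)
    (h2 : ∀ a < n, ∀ c ≤ n, |G a c - F (a + 1) c| ≤ L)
    (Bad : Finset (ℕ × ℕ)) (hBad : Bad ⊆ range n ×ˢ range n)
    (hgood : ∀ a < n, ∀ c < n, (a, c) ∉ Bad → crossSum F G a c ≤ -(2 * Real.log 2)) :
    ((n : ℝ) ^ 2 - Bad.card) * (2 * Real.log 2) ≤ 4 * n * L + 4 * L * Bad.card := by
  -- the total is at least `-4 n L`
  have hv : ∀ c < n, -(2 * L) ≤ ∑ a ∈ range n, ((G (a + 1) c + F a (c + 1)) - (F (a + 1) (c + 1) + G a c)) := by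
    intro c hc
    have e : ∑ a ∈ range n, ((G (a + 1) c + F a (c + 1)) - (F (a + 1) (c + 1) + G a c))
        = (G n c - F n (c + 1)) - (G 0 c - F 0 (c + 1)) := by
      rw [← Finset.sum_range_sub (fun a => G a c - F a (c + 1)) n]
      exact sum_congr rfl fun a _ => by ring
    rw [e]
    have a1 := abs_le.1 (h1 n le_rfl c hc)
    have a2 := abs_le.1 (h1 0 (Nat.zero_le _) c hc)
    linarith [a1.1, a2.2]
  have hu : ∀ a < n, -(2 * L) ≤ ∑ c ∈ range n, ((F (a + 1) c + G a (c + 1)) - (F (a + 1) (c + 1) + G a c)) := by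
    intro a ha
    have e : ∑ c ∈ range n, ((F (a + 1) c + G a (c + 1)) - (F (a + 1) (c + 1) + G a c))
        = (G a n - F (a + 1) n) - (G a 0 - F (a + 1) 0) := by
      rw [← Finset.sum_range_sub (fun c => G a c - F (a + 1) c) n]
      exact sum_congr rfl fun c _ => by ring
    rw [e]
    have a1 := abs_le.1 (h2 a ha n le_rfl)
    have a2 := abs_le.1 (h2 a ha 0 (Nat.zero_le _))
    linarith [a1.1, a2.2]
  have hlow : -(4 * n * L) ≤ ∑ p ∈ range n ×ˢ range n, crossSum F G p.1 p.2 := by
    rw [sum_product]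
    have e : ∑ a ∈ range n, ∑ c ∈ range n, crossSum F G a c
        = ∑ a ∈ range n, ∑ c ∈ range n, ((F (a + 1) c + G a (c + 1)) - (F (a + 1) (c + 1) + G a c))
          + ∑ c ∈ range n, ∑ a ∈ range n, ((G (a + 1) c + F a (c + 1)) - (F (a + 1) (c + 1) + G a c)) := by
      rw [sum_comm (s := range n) (t := range n)
        (f := fun c a => ((G (a + 1) c + F a (c + 1)) - (F (a + 1) (c + 1) + G a c))),
        ← sum_add_distrib]
      refine sum_congr rfl fun a _ => ?_
      rw [← sum_add_distrib]
      refine sum_congr rfl fun c _ => ?_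
      unfold crossSum
      ring
    rw [e]
    have b1 : ∑ _a ∈ range n, (-(2 * L)) ≤ ∑ a ∈ range n, ∑ c ∈ range n,
        ((F (a + 1) c + G a (c + 1)) - (F (a + 1) (c + 1) + G a c)) :=
      sum_le_sum fun a ha => hu a (mem_range.1 ha)
    have b2 : ∑ _c ∈ range n, (-(2 * L)) ≤ ∑ c ∈ range n, ∑ a ∈ range n,
        ((G (a + 1) c + F a (c + 1)) - (F (a + 1) (c + 1) + G a c)) :=
      sum_le_sum fun c hc => hv c (mem_range.1 hc)
    rw [sum_const, card_range, nsmul_eq_mul] at b1 b2
    linarith
  -- the upper bound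
  have hall : ∀ a < n, ∀ c < n, crossSum F G a c ≤ 4 * L := by
    intro a ha c hc
    have a1 := abs_le.1 (h2 a ha (c + 1) (by omega))
    have a2 := abs_le.1 (h2 a ha c hc.le)
    have a3 := abs_le.1 (h1 (a + 1) (by omega) c hc)
    have a4 := abs_le.1 (h1 a ha.le c hc)
    unfold crossSum
    linarith [a1.2, a2.1, a3.2, a4.1]
  have hup : ∑ p ∈ range n ×ˢ range n, crossSum F G p.1 p.2
      ≤ (Bad.card : ℝ) * (4 * L) + ((n : ℝ) ^ 2 - Bad.card) * (-(2 * Real.log 2)) := by
    rw [← sum_sdiff hBad]
    have c1 : ∑ p ∈ Bad, crossSum F G p.1 p.2 ≤ (Bad.card : ℝ) * (4 * L) := by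
      rw [← nsmul_eq_mul]
      refine sum_le_card_nsmul _ _ _ fun p hp => ?_
      have := mem_product.1 (hBad hp)
      exact hall p.1 (mem_range.1 this.1) p.2 (mem_range.1 this.2)
    have c2 : ∑ p ∈ (range n ×ˢ range n) \ Bad, crossSum F G p.1 p.2
        ≤ (((range n ×ˢ range n) \ Bad).card : ℝ) * (-(2 * Real.log 2)) := by
      rw [← nsmul_eq_mul]
      refine sum_le_card_nsmul _ _ _ fun p hp => ?_
      rw [mem_sdiff, mem_product] at hp
      exact hgood p.1 (mem_range.1 hp.1.1) p.2 (mem_range.1 hp.1.2) hp.2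
    have c3 : (((range n ×ˢ range n) \ Bad).card : ℝ) = (n : ℝ) ^ 2 - Bad.card := by
      have h3 := card_le_card hBad
      rw [card_sdiff_of_subset hBad, Nat.cast_sub h3, card_product, card_range]
      push_cast
      ring
    rw [c3] at c2
    linarith
  have := hlow.trans hup
  linarith

/-- **Averaging over windows.** -/
lemma exists_window {E : Type*} [Fintype E] [DecidableEq E] [Nonempty E] {J : ℕ} (hJ : 0 < J)
    (bad : (Fin J → E) → Fin J → Prop) [∀ e j, Decidable (bad e j)] (G : ℕ)
    (hG : ∀ e, (univ.filter (fun j => bad e j)).card ≤ G) :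
    ∃ (j : Fin J) (e : Fin J → E),
      J * (univ.filter (fun x => bad (Function.update e j x) j)).card ≤ G * Fintype.card E := by
  classical
  by_contra hcon
  push Not at hcon
  -- the swap
  have swap : ∀ (j : Fin J) (φ : (Fin J → E) → ℕ),
      ∑ e : Fin J → E, ∑ x : E, φ (Function.update e j x) = Fintype.card E * ∑ e : Fin J → E, φ e := by
    intro j φ
    have h1 : ∑ e : Fin J → E, ∑ x : E, φ (Function.update e j x)
        = ∑ q : (Fin J → E) × E, φ (Function.update q.1 j q.2) := by
      rw [Fintype.sum_prod_type]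
    have h2 : Fintype.card E * ∑ e : Fin J → E, φ e = ∑ q : (Fin J → E) × E, φ q.1 := by
      rw [Fintype.sum_prod_type, mul_sum]
      refine sum_congr rfl fun e _ => ?_
      change Fintype.card E * φ e = ∑ _y : E, φ e
      rw [sum_const, card_univ, smul_eq_mul]
    rw [h1, h2]
    let τ : (Fin J → E) × E → (Fin J → E) × E := fun q => (Function.update q.1 j q.2, q.1 j)
    have hτ : Function.Involutive τ := by
      rintro ⟨e, x⟩
      simp only [τ]
      rw [Function.update_idem, Function.update_self, Function.update_eq_self]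
    exact Fintype.sum_equiv hτ.toPerm _ _ fun q => rfl
  have hE : 0 < Fintype.card E := Fintype.card_pos
  have hsum : ∑ j : Fin J, ∑ e : Fin J → E,
      J * (univ.filter (fun x => bad (Function.update e j x) j)).card
      = J * (Fintype.card E * ∑ e : Fin J → E, (univ.filter (fun j => bad e j)).card) := by
    have h3 : ∀ j : Fin J, ∑ e : Fin J → E,
        J * (univ.filter (fun x => bad (Function.update e j x) j)).card
        = J * (Fintype.card E * ∑ e : Fin J → E, if bad e j then 1 else 0) := by
      intro j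
      rw [← mul_sum, ← swap j (fun e => if bad e j then 1 else 0)]
      congr 1
      refine sum_congr rfl fun e _ => ?_
      rw [card_filter]
    rw [sum_congr rfl fun j _ => h3 j, ← mul_sum, ← mul_sum, sum_comm]
    congr 2
    refine sum_congr rfl fun e _ => ?_
    rw [card_filter]
  have hle : J * (Fintype.card E * ∑ e : Fin J → E, (univ.filter (fun j => bad e j)).card)
      ≤ J * (Fintype.card E * (Fintype.card (Fin J → E) * G)) := by
    refine Nat.mul_le_mul_left _ (Nat.mul_le_mul_left _ ?_)
    have := sum_le_card_nsmul (univ : Finset (Fin J → E))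
      (fun e => (univ.filter (fun j => bad e j)).card) G fun e _ => hG e
    simpa using this
  have hlt : ∑ _j : Fin J, ∑ _e : Fin J → E, G * Fintype.card E
      < ∑ j : Fin J, ∑ e : Fin J → E,
        J * (univ.filter (fun x => bad (Function.update e j x) j)).card := by
    have : Nonempty (Fin J) := ⟨⟨0, hJ⟩⟩
    refine sum_lt_sum_of_nonempty univ_nonempty fun j _ => ?_
    exact sum_lt_sum_of_nonempty univ_nonempty fun e _ => hcon j e
  rw [hsum] at hlt
  have h4 := lt_of_lt_of_le hlt hle
  simp only [sum_const, card_univ, Fintype.card_fin, smul_eq_mul] at h4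
  have h5 : J * (Fintype.card (Fin J → E) * (G * Fintype.card E))
      = J * (Fintype.card E * (Fintype.card (Fin J → E) * G)) := by ring
  omega

end Pool.Agent.BalanWangSC
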