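import Pool.Agent.MP_686ee2_an.SC.Changes
import Pool.Agent.MP_686ee2_an.SC.Tele

/-!
One window, and many windows.
-/

set_option autoImplicit false
set_option maxHeartbeats 1000000

open Finset Matrix

namespace Pool.Agent.BalanWangSC

open Pool.Agent.BalanWang

/-- Three blocks filled from the left. -/
def ZZ (n o α β γ : ℕ) : Finset ℕ :=
  Ico o (o + α) ∪ Ico (o + n) (o + n + β) ∪ Ico (o + 3 * n + 1) (o + 3 * n + 1 + γ)

lemma mem_ZZ {n o α β γ x : ℕ} : x ∈ ZZ n o α β γ ↔ (o ≤ x ∧ x < o + α) ∨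
    (o + n ≤ x ∧ x < o + n + β) ∨ (o + 3 * n + 1 ≤ x ∧ x < o + 3 * n + 1 + γ) := by
  simp only [ZZ, mem_union, mem_Ico]
  tauto

lemma card_ZZ {n o α β γ : ℕ} (hα : α ≤ n) (hβ : β ≤ 2 * n + 1) (hγ : γ ≤ n) :
    (ZZ n o α β γ).card = α + β + γ := by
  unfold ZZ
  rw [card_union_of_disjoint, card_union_of_disjoint]
  · simp only [Nat.card_Ico]
    omega
  all_goals
    rw [disjoint_left]
    intro x hx
    simp only [mem_union, mem_Ico] at hx ⊢
    omega

section

variable {s : ℕ}

/-- the window is changing for `T` -/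
def Chg (w : ℕ → Fin (s + 2) → ℝ) (T : Finset ℕ) (lo hi : ℕ) : Prop :=
  ∃ k k', lo ≤ k ∧ k < hi ∧ lo ≤ k' ∧ k' < hi ∧ k ∉ T ∧ k' ∉ T ∧
    PS w (insert k T) * PS w (insert k' T) < 0

/-- the state with `2n` elements -/
def TT (Y : Finset ℕ) (n o : ℕ) (p : ℕ × ℕ) : Finset ℕ := Y ∪ ZZ n o p.1 (2 * n - p.1 - p.2) p.2

/-- **One window.** -/
theorem one_window (w : ℕ → Fin (s + 2) → ℝ) (N : ℕ)
    (hspark : ∀ S ⊆ range N, S.card = s + 2 → PS w S ≠ 0)
    (K : ℝ) (hlip : ∀ T ⊆ range N, T.card = s + 1 → ∀ i < N, ∀ j < N, i ∉ T → j ∉ T →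
      |PS w (insert i T)| ≤ K * |PS w (insert j T)|)
    (n o : ℕ) (Y : Finset ℕ) (hYN : Y ⊆ range N) (hYo : ∀ y ∈ Y, ¬ (o ≤ y ∧ y < o + (4 * n + 2)))
    (ho : o + (4 * n + 2) ≤ N) (hYc : Y.card + 2 * n = s + 1)
    (BadT : Finset (ℕ × ℕ))
    (hBadT : ∀ p : ℕ × ℕ, p.1 ≤ n → p.2 ≤ n → p ∉ BadT → ¬ Chg w (TT Y n o p) o (o + (4 * n + 2))) :
    ∃ B : ℕ, B ≤ 2 * BadT.card ∧
      ((n : ℝ) ^ 2 - B) * (2 * Real.log 2) ≤ 4 * n * Real.log K + 4 * Real.log K * B := by
  classical
  set d := o + 4 * n + 1 with hd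
  -- the sets
  have hTTN : ∀ {a c : ℕ}, a ≤ n → c ≤ n → TT Y n o (a, c) ⊆ range N := by
    intro a c ha hc x hx
    unfold TT at hx
    rw [mem_union, mem_ZZ] at hx
    rcases hx with hx | hx
    · exact hYN hx
    · rw [mem_range]
      simp only at hx
      omega
  have hYZ : ∀ {α β γ : ℕ}, α ≤ n → β ≤ 2 * n + 1 → γ ≤ n → Disjoint Y (ZZ n o α β γ) := by
    intro α β γ hα hβ hγ
    rw [disjoint_left]
    intro y hy hy2
    rw [mem_ZZ] at hy2
    exact hYo y hy (by omega)
  have hTTc : ∀ {a c : ℕ}, a ≤ n → c ≤ n → (TT Y n o (a, c)).card = s + 1 := by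
    intro a c ha hc
    unfold TT
    rw [card_union_of_disjoint (hYZ ha (by simp only; omega) hc), card_ZZ ha (by simp only; omega) hc]
    simp only
    omega
  have hnotY : ∀ {x : ℕ}, o ≤ x → x < o + (4 * n + 2) → x ∉ Y := fun h1 h2 h => hYo _ h ⟨h1, h2⟩
  have hnotTT : ∀ {a c x : ℕ}, a ≤ n → c ≤ n → o ≤ x → x < o + (4 * n + 2) →
      x ∉ ZZ n o a (2 * n - a - c) c → x ∉ TT Y n o (a, c) := by
    intro a c x _ _ h1 h2 h3
    unfold TT
    rw [mem_union, not_or]
    exact ⟨hnotY h1 h2, h3⟩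
  have hda : ∀ {a c : ℕ}, a ≤ n → c ≤ n → d ∉ TT Y n o (a, c) := by
    intro a c ha hc
    refine hnotTT ha hc (by omega) (by omega) ?_
    rw [mem_ZZ]; omega
  have haa : ∀ {a c : ℕ}, a < n → c ≤ n → o + a ∉ TT Y n o (a, c) := by
    intro a c ha hc
    refine hnotTT ha.le hc (by omega) (by omega) ?_
    rw [mem_ZZ]; omega
  have hcc : ∀ {a c : ℕ}, a ≤ n → c < n → o + 3 * n + 1 + c ∉ TT Y n o (a, c) := by
    intro a c ha hc
    refine hnotTT ha hc.le (by omega) (by omega) ?_
    rw [mem_ZZ]; omega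
  have hbb : ∀ {a c : ℕ}, a ≤ n → c ≤ n → o + n + (2 * n - a - c) ∉ TT Y n o (a, c) := by
    intro a c ha hc
    refine hnotTT ha hc (by omega) (by omega) ?_
    rw [mem_ZZ]; omega
  have ins : ∀ {T : Finset ℕ} {k : ℕ}, T ⊆ range N → T.card = s + 1 → k < N → k ∉ T →
      PS w (insert k T) ≠ 0 := by
    intro T k hT hTc hk hkT
    refine hspark _ ?_ (by rw [card_insert_of_notMem hkT, hTc])
    intro y hy
    rw [mem_insert] at hy
    rcases hy with rfl | hy
    · exact mem_range.2 hk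
    · exact hT hy
  set F : ℕ → ℕ → ℝ := fun a c => Real.log |PS w (Y ∪ ZZ n o a (2 * n + 1 - a - c) c)| with hF
  set G : ℕ → ℕ → ℝ := fun a c => Real.log |PS w (insert d (TT Y n o (a, c)))| with hG
  have eFa : ∀ {a c : ℕ}, a < n → c ≤ n →
      Y ∪ ZZ n o (a + 1) (2 * n + 1 - (a + 1) - c) c = insert (o + a) (TT Y n o (a, c)) := by
    intro a c ha hc
    unfold TT
    ext x
    simp only [mem_insert, mem_union, mem_ZZ]
    by_cases hx : x ∈ Y <;> simp only [hx, true_or, or_true, false_or] <;> omega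
  have eFc : ∀ {a c : ℕ}, a ≤ n → c < n →
      Y ∪ ZZ n o a (2 * n + 1 - a - (c + 1)) (c + 1) = insert (o + 3 * n + 1 + c) (TT Y n o (a, c)) := by
    intro a c ha hc
    unfold TT
    ext x
    simp only [mem_insert, mem_union, mem_ZZ]
    by_cases hx : x ∈ Y <;> simp only [hx, true_or, or_true, false_or] <;> omega
  have eFb : ∀ {a c : ℕ}, a ≤ n → c ≤ n →
      Y ∪ ZZ n o a (2 * n + 1 - a - c) c = insert (o + n + (2 * n - a - c)) (TT Y n o (a, c)) := by
    intro a c ha hc
    unfold TT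
    ext x
    simp only [mem_insert, mem_union, mem_ZZ]
    by_cases hx : x ∈ Y <;> simp only [hx, true_or, or_true, false_or] <;> omega
  -- exchanges
  have h1 : ∀ a ≤ n, ∀ c < n, |G a c - F a (c + 1)| ≤ Real.log K := by
    intro a ha c hc
    simp only [hF, hG]
    rw [eFc ha hc]
    have p1 := ins (hTTN ha hc.le) (hTTc ha hc.le) (by omega : d < N) (hda ha hc.le)
    have p2 := ins (hTTN ha hc.le) (hTTc ha hc.le) (by omega : o + 3 * n + 1 + c < N) (hcc ha hc)
    exact log_lip (abs_pos.2 p1) (abs_pos.2 p2)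
      (hlip _ (hTTN ha hc.le) (hTTc ha hc.le) d (by omega) _ (by omega) (hda ha hc.le) (hcc ha hc))
      (hlip _ (hTTN ha hc.le) (hTTc ha hc.le) _ (by omega) d (by omega) (hcc ha hc) (hda ha hc.le))
  have h2 : ∀ a < n, ∀ c ≤ n, |G a c - F (a + 1) c| ≤ Real.log K := by
    intro a ha c hc
    simp only [hF, hG]
    rw [eFa ha hc]
    have p1 := ins (hTTN ha.le hc) (hTTc ha.le hc) (by omega : d < N) (hda ha.le hc)
    have p2 := ins (hTTN ha.le hc) (hTTc ha.le hc) (by omega : o + a < N) (haa ha hc)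
    exact log_lip (abs_pos.2 p1) (abs_pos.2 p2)
      (hlip _ (hTTN ha.le hc) (hTTc ha.le hc) d (by omega) _ (by omega) (hda ha.le hc) (haa ha hc))
      (hlip _ (hTTN ha.le hc) (hTTc ha.le hc) _ (by omega) d (by omega) (haa ha hc) (hda ha.le hc))
  -- the bad places
  set Bad : Finset (ℕ × ℕ) := (range n ×ˢ range n).filter
    (fun p => (p.1 + 1, p.2) ∈ BadT ∨ (p.1, p.2 + 1) ∈ BadT) with hBad
  have hBadc : Bad.card ≤ 2 * BadT.card := by
    have h3 : Bad ⊆ BadT.image (fun p => (p.1 - 1, p.2)) ∪ BadT.image (fun p => (p.1, p.2 - 1)) := by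
      intro p hp
      rw [hBad, mem_filter] at hp
      rw [mem_union, mem_image, mem_image]
      rcases hp.2 with h | h
      · exact Or.inl ⟨_, h, by simp⟩
      · exact Or.inr ⟨_, h, by simp⟩
    have h4 := card_le_card h3
    have h5 := card_union_le (BadT.image (fun p => (p.1 - 1, p.2))) (BadT.image (fun p => (p.1, p.2 - 1)))
    have h6 := card_image_le (s := BadT) (f := fun p => (p.1 - 1, p.2))
    have h7 := card_image_le (s := BadT) (f := fun p => (p.1, p.2 - 1))
    omega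
  refine ⟨Bad.card, hBadc, telescope n F G (Real.log K) h1 h2 Bad (filter_subset _ _) ?_⟩
  intro a ha c hc hnb
  have hnb' : (a + 1, c) ∉ BadT ∧ (a, c + 1) ∉ BadT := by
    rw [← not_or]
    intro h
    exact hnb (mem_filter.2 ⟨mem_product.2 ⟨mem_range.2 ha, mem_range.2 hc⟩, h⟩)
  -- the common part
  set X : Finset ℕ := Y ∪ ZZ n o a (2 * n - 1 - a - c) c with hX
  set ka := o + a with hka
  set kb := o + n + (2 * n - 1 - a - c) with hkb
  set kc := o + 3 * n + 1 + c with hkc
  have hXc : X.card = s := by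
    rw [hX, card_union_of_disjoint (hYZ ha.le (by omega) hc.le), card_ZZ ha.le (by omega) hc.le]
    omega
  have hnX : ∀ {x : ℕ}, o ≤ x → x < o + (4 * n + 2) → x ∉ ZZ n o a (2 * n - 1 - a - c) c → x ∉ X := by
    intro x g1 g2 g3
    rw [hX, mem_union, not_or]
    exact ⟨hnotY g1 g2, g3⟩
  have hkaX : ka ∉ X := hnX (by omega) (by omega) (by rw [mem_ZZ]; omega)
  have hkbX : kb ∉ X := hnX (by omega) (by omega) (by rw [mem_ZZ]; omega)
  have hkcX : kc ∉ X := hnX (by omega) (by omega) (by rw [mem_ZZ]; omega)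
  have hdX : d ∉ X := hnX (by omega) (by omega) (by rw [mem_ZZ]; omega)
  -- the two states
  have hTa : TT Y n o (a + 1, c) = insert ka X := by
    unfold TT
    rw [hX]
    ext x
    simp only [mem_insert, mem_union, mem_ZZ]
    by_cases hx : x ∈ Y <;> simp only [hx, true_or, or_true, false_or] <;> omega
  have hTc : TT Y n o (a, c + 1) = insert kc X := by
    unfold TT
    rw [hX]
    ext x
    simp only [mem_insert, mem_union, mem_ZZ]
    by_cases hx : x ∈ Y <;> simp only [hx, true_or, or_true, false_or] <;> omega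
  have hTb : TT Y n o (a, c) = insert kb X := by
    unfold TT
    rw [hX]
    ext x
    simp only [mem_insert, mem_union, mem_ZZ]
    by_cases hx : x ∈ Y <;> simp only [hx, true_or, or_true, false_or] <;> omega
  have hrel := three_signed w hXc (show ka < kb by omega) (show kb < kc by omega)
    (show kc < d by omega) hkaX hkbX hkcX hdX
  -- nonvanishing
  have nz : ∀ {T : Finset ℕ} {p : ℕ × ℕ} {k : ℕ}, TT Y n o p = T → p.1 ≤ n → p.2 ≤ n → k < N → k ∉ T →
      PS w (insert k T) ≠ 0 := by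
    rintro T ⟨p1, p2⟩ k rfl hp1 hp2 hk hkT
    exact ins (hTTN hp1 hp2) (hTTc hp1 hp2) hk hkT
  have kaNe : ka ≠ kb ∧ ka ≠ kc ∧ ka ≠ d ∧ kb ≠ kc ∧ kb ≠ d ∧ kc ≠ d := by
    refine ⟨?_, ?_, ?_, ?_, ?_, ?_⟩ <;> omega
  obtain ⟨ne1, ne2, ne3, ne4, ne5, ne6⟩ := kaNe
  have nin : ∀ {k l : ℕ}, k ≠ l → k ∉ X → k ∉ insert l X := by
    intro k l hkl hk
    rw [mem_insert, not_or]
    exact ⟨hkl, hk⟩
  have pba := nz hTa (by simp only; omega) (by simp only; omega) (by omega : kb < N) (nin ne1.symm hkbX)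
  have pca := nz hTa (by simp only; omega) (by simp only; omega) (by omega : kc < N) (nin ne2.symm hkcX)
  have pda := nz hTa (by simp only; omega) (by simp only; omega) (by omega : d < N) (nin ne3.symm hdX)
  have pbc := nz hTc (by simp only; omega) (by simp only; omega) (by omega : kb < N) (nin ne4 hkbX)
  have pdc := nz hTc (by simp only; omega) (by simp only; omega) (by omega : d < N) (nin ne6.symm hdX)
  have pdb := nz hTb (by simp only; omega) (by simp only; omega) (by omega : d < N) (nin ne5.symm hdX)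
  -- signs
  have g1 := hBadT (a + 1, c) (by simp only; omega) (by simp only; omega) hnb'.1
  have g2 := hBadT (a, c + 1) (by simp only; omega) (by simp only; omega) hnb'.2
  rw [hTa] at g1
  rw [hTc] at g2
  have sa : 0 < PS w (insert kb (insert ka X)) * PS w (insert d (insert ka X)) := by
    refine lt_of_le_of_ne ?_ (mul_ne_zero pba pda).symm
    by_contra hneg
    push Not at hneg
    exact g1 ⟨kb, d, by omega, by omega, by omega, by omega, nin ne1.symm hkbX, nin ne3.symm hdX, hneg⟩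
  have sc : 0 < PS w (insert kb (insert kc X)) * PS w (insert d (insert kc X)) := by
    refine lt_of_le_of_ne ?_ (mul_ne_zero pbc pdc).symm
    by_contra hneg
    push Not at hneg
    exact g2 ⟨kb, d, by omega, by omega, by omega, by omega, nin ne4 hkbX, nin ne6.symm hdX, hneg⟩
  rw [Finset.insert_comm kb ka X, Finset.insert_comm d ka X] at sa
  rw [Finset.insert_comm d kc X] at sc
  rw [Finset.insert_comm kb ka X] at pba
  rw [Finset.insert_comm kc ka X] at pca
  rw [Finset.insert_comm d ka X] at pda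
  rw [Finset.insert_comm d kc X] at pdc
  rw [Finset.insert_comm d kb X] at pdb
  set pAC := PS w (insert ka (insert kc X)) with hpAC
  set pBD := PS w (insert kb (insert d X)) with hpBD
  set pAB := PS w (insert ka (insert kb X)) with hpAB
  set pCD := PS w (insert kc (insert d X)) with hpCD
  set pAD := PS w (insert ka (insert d X)) with hpAD
  set pBC := PS w (insert kb (insert kc X)) with hpBC
  have habs : |pAC| * |pBD| = |pAB| * |pCD| + |pAD| * |pBC| := by
    rw [← abs_mul, ← abs_mul, ← abs_mul, hrel]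
    have h13 : 0 < (pAB * pCD) * (pAD * pBC) := by
      have := mul_pos sa sc
      calc (0 : ℝ) < _ := this
        _ = _ := by ring
    rcases lt_trichotomy (pAB * pCD) 0 with h | h | h
    · have h' : pAD * pBC < 0 := by
        by_contra hc'
        push Not at hc'
        have := mul_nonpos_of_nonpos_of_nonneg h.le hc'
        linarith
      rw [abs_of_neg h, abs_of_neg h', abs_of_neg (by linarith)]
      ring
    · rw [h, zero_mul] at h13
      exact absurd h13 (lt_irrefl _)
    · have h' : 0 < pAD * pBC := pos_of_mul_pos_right h13 h.le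
      rw [abs_of_pos h, abs_of_pos h', abs_of_pos (by linarith)]
  have key := log_amgm (abs_pos.2 pca) (abs_pos.2 pdb) (abs_pos.2 pba) (abs_pos.2 pdc)
    (abs_pos.2 pda) (abs_pos.2 pbc) habs
  -- identification
  have f1 : F (a + 1) (c + 1) = Real.log |pAC| := by
    simp only [hF]
    rw [eFa ha (by omega : c + 1 ≤ n), hTc]
  have f2 : G a c = Real.log |pBD| := by
    simp only [hG]
    rw [hTb, Finset.insert_comm d kb X]
  have f3 : F (a + 1) c = Real.log |pAB| := by
    simp only [hF]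
    rw [eFa ha hc.le, hTb]
  have f4 : G a (c + 1) = Real.log |pCD| := by
    simp only [hG]
    rw [hTc, Finset.insert_comm d kc X]
  have f5 : G (a + 1) c = Real.log |pAD| := by
    simp only [hG]
    rw [hTa, Finset.insert_comm d ka X]
  have f6 : F a (c + 1) = Real.log |pBC| := by
    simp only [hF]
    rw [eFc ha.le hc, hTb, Finset.insert_comm kc kb X]
  unfold crossSum
  rw [f1, f2, f3, f4, f5, f6]
  linarith

end

end Pool.Agent.BalanWangSC
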